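import Pool.Agent.Helper14.GS.St

/-!
# Project GS (MP_627c93_nt), module B5
-/

set_option autoImplicit false

namespace Pool.Agent.Helper72.GS

open Pool.Agent.Helper14.GS Pool.Agent.Helper10.EP

theorem circ_le (x : ℝ) (z : ℤ) : ‖((x : ℝ) : UnitAddCircle)‖ ≤ |x - z| := by
  rw [UnitAddCircle.norm_eq]
  exact round_le x z

theorem circ_cont (c : ℝ) : Continuous fun θ : ℝ => ‖((θ * c : ℝ) : UnitAddCircle)‖ :=
  continuous_norm.comp ((AddCircle.continuous_mk' (1 : ℝ)).comp (continuous_id.mul continuous_const))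

theorem no_common (θ : ℝ) (a b : ℤ) (hθ : 0 < θ) (ha : θ * Real.log 2 = a)
    (hb : θ * Real.log 3 = b) : False := by
  have h2 : 0 < Real.log 2 := Real.log_pos (by norm_num)
  have h3 : 0 < Real.log 3 := Real.log_pos (by norm_num)
  have ha0 : (0 : ℝ) < a := by rw [← ha]; positivity
  have hb0 : (0 : ℝ) < b := by rw [← hb]; positivity
  have ha1 : 0 < a := by exact_mod_cast ha0
  have hb1 : 0 < b := by exact_mod_cast hb0
  obtain ⟨m, rfl⟩ := Int.eq_ofNat_of_zero_le ha1.le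
  obtain ⟨n, rfl⟩ := Int.eq_ofNat_of_zero_le hb1.le
  have hm : 0 < m := by exact_mod_cast ha1
  have hn : 0 < n := by exact_mod_cast hb1
  have e : (m : ℝ) * Real.log 3 = n * Real.log 2 := by
    have ha' : θ * Real.log 2 = m := by exact_mod_cast ha
    have hb' : θ * Real.log 3 = n := by exact_mod_cast hb
    rw [← ha', ← hb']
    ring
  have e2 : Real.log ((3 : ℝ) ^ m) = Real.log ((2 : ℝ) ^ n) := by
    rw [Real.log_pow, Real.log_pow]
    exact e
  have e3 : (3 : ℝ) ^ m = (2 : ℝ) ^ n :=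
    Real.log_injOn_pos (Set.mem_Ioi.2 (by positivity)) (Set.mem_Ioi.2 (by positivity)) e2
  have e4 : 3 ^ m = 2 ^ n := by exact_mod_cast e3
  have h5 : 2 ∣ 3 ^ m := by
    rw [e4]
    exact dvd_pow_self 2 hn.ne'
  have h6 := Nat.Prime.dvd_of_dvd_pow Nat.prime_two h5
  omega

/-- B5 -/
theorem B5 : StB5 := by
  intro θ₁ θ₀ h1
  rcases lt_or_ge θ₀ θ₁ with h | h
  · refine ⟨1, one_pos, ?_⟩
    intro θ ha hb
    exact absurd (ha.trans hb) (not_le.2 h)
  have hcont : Continuous fun θ : ℝ => max ‖((θ * Real.log 2 : ℝ) : UnitAddCircle)‖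
      ‖((θ * Real.log 3 : ℝ) : UnitAddCircle)‖ :=
    (circ_cont _).max (circ_cont _)
  obtain ⟨t, ht, hmin⟩ := (isCompact_Icc (a := θ₁) (b := θ₀)).exists_isMinOn
    (Set.nonempty_Icc.2 h) hcont.continuousOn
  have htpos : 0 < t := lt_of_lt_of_le h1 ht.1
  refine ⟨max ‖((t * Real.log 2 : ℝ) : UnitAddCircle)‖ ‖((t * Real.log 3 : ℝ) : UnitAddCircle)‖,
    ?_, ?_⟩
  · by_contra hneg
    rw [not_lt, max_le_iff] at hneg
    obtain ⟨ha, hb⟩ := hneg
    rw [UnitAddCircle.norm_eq] at ha hb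
    have ha' := abs_nonpos_iff.1 ha
    have hb' := abs_nonpos_iff.1 hb
    exact no_common t _ _ htpos (sub_eq_zero.1 ha') (sub_eq_zero.1 hb')
  · intro θ ha hb N
    have hm := hmin (Set.mem_Icc.2 ⟨ha, hb⟩)
    have hm' : max ‖((t * Real.log 2 : ℝ) : UnitAddCircle)‖
        ‖((t * Real.log 3 : ℝ) : UnitAddCircle)‖ ≤ max ‖((θ * Real.log 2 : ℝ) : UnitAddCircle)‖
        ‖((θ * Real.log 3 : ℝ) : UnitAddCircle)‖ := hm
    rcases le_max_iff.1 hm' with h' | h'
    · exact Or.inl (h'.trans (circ_le _ _))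
    · exact Or.inr (h'.trans (circ_le _ _))

end Pool.Agent.Helper72.GS
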