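import Pool.Agent.Helper79.GS.St2

/-!
# Project GS (MP_c2d095_lc), module KSC: a ko capture of Black changes the score by 4
-/

set_option autoImplicit false

namespace Pool.Agent.Helper72.GS

open Pool.Agent.Helper79.GS
open Pool.Agent.Helper19.SK

section

variable {V : Type} {G : SimpleGraph V} {P Q : Pos V} {e u : V}

private theorem chain_single {P : Pos V} {e w : V} (he : P e = none)
    (h : ∀ x, G.Adj e x → P x ≠ none) (hw : Chain G P e w) : w = e := by
  rcases Relation.ReflTransGen.cases_head hw with h1 | ⟨b, hb, -⟩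
  · exact h1.symm
  · exact absurd (hb.2.symm.trans he) (h b hb.1)

private theorem chain_avoid {P : Pos V} {e v w : V} (h : ∀ x, G.Adj e x → P x ≠ none)
    (hv : P v = none) (hve : v ≠ e) (hw : Chain G P v w) : w ≠ e ∧ P w = none := by
  induction hw with
  | refl => exact ⟨hve, hv⟩
  | @tail b d hb hbd ih =>
    have h1 : P d = none := hbd.2.symm.trans ih.2
    refine ⟨?_, h1⟩
    rintro rfl
    exact h b hbd.1.symm ih.2

/-- the hypotheses on the two positions -/
private structure Two (G : SimpleGraph V) (P Q : Pos V) (e u : V) : Prop where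
  adj : G.Adj e u
  Pe : P e = none
  Pu : P u = some false
  Qe : Q e = some true
  Qu : Q u = none
  eq : ∀ x, x ≠ e → x ≠ u → Q x = P x
  ne : ∀ w, G.Adj e w → P w = some false
  nu : ∀ w, G.Adj u w → Q w = some true

private theorem Two.chain (h : Two G P Q e u) {v : V} (hv : P v = none) (hve : v ≠ e) (w : V) :
    (Chain G P v w → Chain G Q v w ∧ Q w = none ∧ w ≠ u) := by
  intro hw
  have hvu : v ≠ u := by
    rintro rfl
    rw [h.Pu] at hv
    cases hv
  have he : ∀ x, G.Adj e x → P x ≠ none := fun x hx => by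
    rw [h.ne x hx]
    exact Option.some_ne_none _
  induction hw with
  | refl => exact ⟨Relation.ReflTransGen.refl, by rw [h.eq v hve hvu, hv], hvu⟩
  | @tail b d hb hbd ih =>
    have h1 := chain_avoid he hv hve hb
    have h2 := chain_avoid he hv hve (hb.tail hbd)
    have h3 : d ≠ u := by
      rintro rfl
      have h4 := h2.2
      rw [h.Pu] at h4
      cases h4
    have h5 : Q d = none := by rw [h.eq d h2.1 h3, h2.2]
    exact ⟨ih.1.tail ⟨hbd.1, by rw [ih.2.1, h5]⟩, h5, h3⟩

private theorem Two.chain' (h : Two G P Q e u) {v : V} (hv : Q v = none) (hvu : v ≠ u) (w : V) :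
    (Chain G Q v w → Chain G P v w ∧ P w = none ∧ w ≠ e) := by
  intro hw
  have hve : v ≠ e := by
    rintro rfl
    rw [h.Qe] at hv
    cases hv
  have hu : ∀ x, G.Adj u x → Q x ≠ none := fun x hx => by
    rw [h.nu x hx]
    exact Option.some_ne_none _
  induction hw with
  | refl => exact ⟨Relation.ReflTransGen.refl, by rw [← h.eq v hve hvu, hv], hve⟩
  | @tail b d hb hbd ih =>
    have h2 := chain_avoid hu hv hvu (hb.tail hbd)
    have h3 : d ≠ e := by
      rintro rfl
      have h4 := h2.2
      rw [h.Qe] at h4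
      cases h4
    have h5 : P d = none := by rw [← h.eq d h3 h2.1, h2.2]
    exact ⟨ih.1.tail ⟨hbd.1, by rw [ih.2.1, h5]⟩, h5, h3⟩

/-- the neighbours of empty points different from `e`, `u` are unchanged -/
private theorem Two.nbr (h : Two G P Q e u) {w x : V} (hP : P w = none) (hQ : Q w = none)
    (hx : G.Adj w x) : Q x = P x := by
  refine h.eq x ?_ ?_
  · rintro rfl
    rw [h.ne w hx.symm] at hP
    cases hP
  · rintro rfl
    rw [h.nu w hx.symm] at hQ
    cases hQ

private theorem Two.encl (h : Two G P Q e u) {v : V} (hve : v ≠ e) (hvu : v ≠ u) (c : Bool) :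
    Encl G P c v ↔ Encl G Q c v := by
  constructor
  · rintro ⟨h1, ⟨w, x, h2, h3, h4⟩, h5⟩
    have hQv : Q v = none := by rw [h.eq v hve hvu, h1]
    refine ⟨hQv, ?_, ?_⟩
    · obtain ⟨h6, h7, -⟩ := h.chain h1 hve w h2
      obtain ⟨-, h8, -⟩ := h.chain' hQv hvu w h6
      exact ⟨w, x, h6, h3, by rw [h.nbr h8 h7 h3, h4]⟩
    · intro w x h6 h7
      obtain ⟨h8, h9, -⟩ := h.chain' hQv hvu w h6
      obtain ⟨-, h10, -⟩ := h.chain h1 hve w h8
      rw [h.nbr h9 h10 h7]
      exact h5 w x h8 h7
  · rintro ⟨h1, ⟨w, x, h2, h3, h4⟩, h5⟩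
    have hPv : P v = none := by rw [← h.eq v hve hvu, h1]
    refine ⟨hPv, ?_, ?_⟩
    · obtain ⟨h6, h7, -⟩ := h.chain' h1 hvu w h2
      obtain ⟨-, h8, -⟩ := h.chain hPv hve w h6
      exact ⟨w, x, h6, h3, by rw [← h.nbr h7 h8 h3, h4]⟩
    · intro w x h6 h7
      obtain ⟨h8, h9, -⟩ := h.chain hPv hve w h6
      obtain ⟨-, h10, -⟩ := h.chain' h1 hvu w h8
      rw [← h.nbr h10 h9 h7]
      exact h5 w x h8 h7

private theorem Two.mem (h : Two G P Q e u) {v : V} (hve : v ≠ e) (hvu : v ≠ u) (c : Bool) :
    (Q v = some c ∨ Encl G Q c v) ↔ (P v = some c ∨ Encl G P c v) := by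
  rw [h.eq v hve hvu, h.encl hve hvu c]

private theorem Two.main [Finite V] (h : Two G P Q e u) :
    area G Q true = area G P true + 2 ∧ area G P false = area G Q false + 2 := by
  have heu : e ≠ u := h.adj.ne
  have heP : ∀ x, G.Adj e x → P x ≠ none := fun x hx => by
    rw [h.ne x hx]
    exact Option.some_ne_none _
  have huQ : ∀ x, G.Adj u x → Q x ≠ none := fun x hx => by
    rw [h.nu x hx]
    exact Option.some_ne_none _
  have e1 : Encl G P false e := by
    refine ⟨h.Pe, ⟨e, u, Relation.ReflTransGen.refl, h.adj, h.Pu⟩, ?_⟩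
    intro w x hw hx
    rw [chain_single h.Pe heP hw] at hx
    rw [h.ne x hx]
    simp
  have e2 : ¬ Encl G P true e := by
    rintro ⟨-, ⟨w, x, hw, hx, hx'⟩, -⟩
    rw [chain_single h.Pe heP hw] at hx
    rw [h.ne x hx] at hx'
    simp at hx'
  have e3 : Encl G Q true u := by
    refine ⟨h.Qu, ⟨u, e, Relation.ReflTransGen.refl, h.adj.symm, h.Qe⟩, ?_⟩
    intro w x hw hx
    rw [chain_single h.Qu huQ hw] at hx
    rw [h.nu x hx]
    simp
  have e4 : ¬ Encl G Q false u := by
    rintro ⟨-, ⟨w, x, hw, hx, hx'⟩, -⟩
    rw [chain_single h.Qu huQ hw] at hx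
    rw [h.nu x hx] at hx'
    simp at hx'
  constructor
  · have hs : ({v | Q v = some true ∨ Encl G Q true v} : Set V) =
        insert e (insert u {v | P v = some true ∨ Encl G P true v}) := by
      ext v
      by_cases hve : v = e
      · subst hve
        exact ⟨fun _ => Or.inl rfl, fun _ => Or.inl h.Qe⟩
      by_cases hvu : v = u
      · subst hvu
        exact ⟨fun _ => Or.inr (Or.inl rfl), fun _ => Or.inr e3⟩
      constructor
      · intro h1
        exact Or.inr (Or.inr ((h.mem hve hvu true).1 h1))
      · rintro (h1 | h1 | h1)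
        · exact absurd h1 hve
        · exact absurd h1 hvu
        · exact (h.mem hve hvu true).2 h1
    have hu : u ∉ ({v | P v = some true ∨ Encl G P true v} : Set V) := by
      rintro (h1 | h1)
      · rw [h.Pu] at h1
        simp at h1
      · have := h1.1
        rw [h.Pu] at this
        cases this
    have he : e ∉ (insert u {v | P v = some true ∨ Encl G P true v} : Set V) := by
      rintro (h1 | h1 | h1)
      · exact heu h1
      · rw [h.Pe] at h1
        cases h1
      · exact e2 h1
    rw [area, area, hs, Set.ncard_insert_of_notMem he (Set.toFinite _),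
      Set.ncard_insert_of_notMem hu (Set.toFinite _)]
  · have hs : ({v | P v = some false ∨ Encl G P false v} : Set V) =
        insert e (insert u {v | Q v = some false ∨ Encl G Q false v}) := by
      ext v
      by_cases hve : v = e
      · subst hve
        exact ⟨fun _ => Or.inl rfl, fun _ => Or.inr e1⟩
      by_cases hvu : v = u
      · subst hvu
        exact ⟨fun _ => Or.inr (Or.inl rfl), fun _ => Or.inl h.Pu⟩
      constructor
      · intro h1
        exact Or.inr (Or.inr ((h.mem hve hvu false).2 h1))
      · rintro (h1 | h1 | h1)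
        · exact absurd h1 hve
        · exact absurd h1 hvu
        · exact (h.mem hve hvu false).1 h1
    have hu : u ∉ ({v | Q v = some false ∨ Encl G Q false v} : Set V) := by
      rintro (h1 | h1)
      · rw [h.Qu] at h1
        cases h1
      · exact e4 h1
    have he : e ∉ (insert u {v | Q v = some false ∨ Encl G Q false v} : Set V) := by
      rintro (h1 | h1 | h1)
      · exact heu h1
      · rw [h.Qe] at h1
        simp at h1
      · have := h1.1
        rw [h.Qe] at this
        cases this
    rw [area, area, hs, Set.ncard_insert_of_notMem he (Set.toFinite _),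
      Set.ncard_insert_of_notMem hu (Set.toFinite _)]

end

theorem hKSC : StKSC := by
  intro V _ G P e hko
  obtain ⟨he, u, hadj, hu, hplay, hne, hnu, -⟩ := hko
  have h : Two G P (play G P true e) e u :=
    { adj := hadj
      Pe := he
      Pu := hu
      Qe := by rw [hplay, put_ne _ hadj.ne, put_same]
      Qu := by rw [hplay, put_same]
      eq := fun x hxe hxu => by rw [hplay, put_ne _ hxu, put_ne _ hxe]
      ne := hne
      nu := hnu }
  exact h.main

end Pool.Agent.Helper72.GS
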